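import Mathlib
import Pool.Agent.Results.MP_20595b_gt.ProductFails
import Pool.Agent.Results.MP_8a2df8_gt.WeakProductCompact

/-!
Products of spaces made of the traces of the images of families of ultrafilters.
-/

set_option autoImplicit false

open Filter Topology Set
open Pool.Agent.Results.MP_20595b_gt.ProductFails

namespace Pool.Agent.Y20.GC

variable {D : Type}

/-- The points of `D`, the point at infinity, and the injective images of the ultrafilters in the
family `𝒰`. -/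
def XF (D : Type) (𝒰 : Set (Ultrafilter ℕ)) : Set (K D) :=
  {x | x = (fun _ => false) ∨ (∃ d, x = emb (pure d)) ∨
    ∃ U ∈ 𝒰, ∃ f : ℕ → D, (∃ A ∈ U, InjOn f A) ∧ x = emb (U.map f)}

noncomputable def ptF (𝒰 : Set (Ultrafilter ℕ)) (d : D) : XF D 𝒰 :=
  ⟨emb (pure d), Or.inr (Or.inl ⟨d, rfl⟩)⟩

theorem map_notMem {U : Ultrafilter ℕ} (hU : ∀ w, ({w} : Set ℕ) ∉ U) {f : ℕ → D}
    (hf : ∃ A ∈ U, InjOn f A) (d : D) : ({d} : Set D) ∉ U.map f := by
  intro h
  obtain ⟨A, hA, hfA⟩ := hf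
  rw [Ultrafilter.mem_map] at h
  have h1 : f ⁻¹' {d} ∩ A ∈ U := inter_mem h hA
  obtain ⟨w, hw, hwA⟩ := Ultrafilter.nonempty_of_mem h1
  have : f ⁻¹' {d} ∩ A = {w} := by
    ext w'
    constructor
    · rintro ⟨h2, h3⟩
      exact hfA h3 hwA ((show f w' = d from h2).trans (show f w = d from hw).symm)
    · rintro rfl
      exact ⟨hw, hwA⟩
  rw [this] at h1
  exact hU w h1

theorem eq_pure_of_sing' {𝒰 : Set (Ultrafilter ℕ)} (hU : ∀ U ∈ 𝒰, ∀ w, ({w} : Set ℕ) ∉ U)
    {x : K D} (hx : x ∈ XF D 𝒰) {d : D} (h : x ⟨{d}, countable_singleton d⟩ = true) :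
    x = emb (pure d) := by
  rcases hx with rfl | ⟨d', rfl⟩ | ⟨U, hUU, f, hf, rfl⟩
  · exact absurd h (by simp)
  · have h1 : d' ∈ ({d} : Set D) := emb_pure.1 h
    rw [mem_singleton_iff] at h1
    rw [h1]
  · exact absurd (emb_eq_true.1 h) (map_notMem (hU U hUU) hf d)

theorem dense_DF [Uncountable D] (𝒰 : Set (Ultrafilter ℕ)) :
    Dense {x : XF D 𝒰 | ∃ d, x.1 = emb (pure d)} := by
  intro x
  obtain ⟨x, hx⟩ := x
  rcases hx with rfl | ⟨d, rfl⟩ | ⟨U, hU, f, hf, rfl⟩
  · have := coc_neBot (D := D)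
    refine mem_closure_of_tendsto (f := fun d : D => ptF 𝒰 d) (b := coc D) ?_
      (Eventually.of_forall fun d => ⟨d, rfl⟩)
    rw [IsInducing.subtypeVal.tendsto_nhds_iff]
    exact tendsto_zero
  · exact subset_closure ⟨d, rfl⟩
  · refine mem_closure_of_tendsto (f := fun w : ℕ => ptF 𝒰 (f w)) (b := (U : Filter ℕ)) ?_
      (Eventually.of_forall fun w => ⟨f w, rfl⟩)
    rw [IsInducing.subtypeVal.tendsto_nhds_iff]
    exact tendsto_emb (u := U.map f) (by rw [Ultrafilter.coe_map]; exact tendsto_map)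

/-! ### subsequences -/

theorem step {J : Type} (d : ℕ → J → D) (ι : J → ℕ) (hι : Function.Injective ι) (N : Set ℕ)
    (hN : N.Infinite) (k : ℕ) : ∃ N' ⊆ N, N'.Infinite ∧ ∀ j, ι j = k →
      (∃ c, ∀ n ∈ N', d n j = c) ∨ InjOn (fun n => d n j) N' := by
  by_cases hk : ∃ j, ι j = k
  · obtain ⟨j, hj⟩ := hk
    by_cases hc : ∃ c, {n ∈ N | d n j = c}.Infinite
    · obtain ⟨c, hc⟩ := hc
      refine ⟨{n ∈ N | d n j = c}, fun n hn => hn.1, hc, fun j' hj' => Or.inl ⟨c, ?_⟩⟩
      have : j' = j := hι (hj'.trans hj.symm)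
      subst this
      exact fun n hn => hn.2
    · push Not at hc
      have himg : ((fun n => d n j) '' N).Infinite := by
        intro hfin
        apply hN
        have h1 : N ⊆ ⋃ c ∈ (fun n => d n j) '' N, {n ∈ N | d n j = c} := by
          intro n hn
          exact mem_biUnion (mem_image_of_mem _ hn) ⟨hn, rfl⟩
        refine (hfin.biUnion fun c _ => ?_).subset h1
        exact hc c
      obtain ⟨N', hN', hb⟩ := (surjOn_image (fun n => d n j) N).exists_bijOn_subset
      refine ⟨N', hN', ?_, fun j' hj' => Or.inr ?_⟩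
      · rw [← hb.image_eq] at himg
        exact himg.of_image _
      · have : j' = j := hι (hj'.trans hj.symm)
        subst this
        exact hb.injOn
  · exact ⟨N, Subset.rfl, hN, fun j hj => absurd ⟨j, hj⟩ hk⟩

theorem diag {J : Type} [Countable J] (d : ℕ → J → D) : ∃ φ : ℕ → ℕ, StrictMono φ ∧
    ∀ j, ∃ m, (∃ c, ∀ n ≥ m, d (φ n) j = c) ∨ InjOn (fun n => d (φ n) j) (Ici m) := by
  obtain ⟨ι, hι⟩ := exists_injective_nat J
  choose! g hg1 hg2 hg3 using fun (N : Set ℕ) (hN : N.Infinite) (k : ℕ) => step d ι hι N hN k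
  let N : ℕ → Set ℕ := fun n => Nat.rec univ (fun k M => g M k) n
  have hN0 : N 0 = univ := rfl
  have hNs : ∀ k, N (k + 1) = g (N k) k := fun k => rfl
  have hinf : ∀ k, (N k).Infinite := by
    intro k
    induction k with
    | zero => exact infinite_univ
    | succ k ih => rw [hNs]; exact hg2 _ ih k
  have hanti : ∀ k l, k ≤ l → N l ⊆ N k := by
    intro k l hkl
    induction l, hkl using Nat.le_induction with
    | base => exact Subset.rfl
    | succ l _ ih => exact (hg1 _ (hinf l) l).trans ih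
  obtain ⟨φ, hφ, hφN⟩ := extraction_forall_of_frequently (P := fun n k => k ∈ N (n + 1))
    fun n => Nat.frequently_atTop_iff_infinite.2 (hinf (n + 1))
  refine ⟨φ, hφ, fun j => ⟨ι j, ?_⟩⟩
  have hmem : ∀ n ≥ ι j, φ n ∈ N (ι j + 1) := fun n hn =>
    hanti _ _ (Nat.add_le_add_right hn 1) (hφN n)
  rcases hg3 _ (hinf (ι j)) (ι j) j rfl with ⟨c, hc⟩ | hinj
  · exact Or.inl ⟨c, fun n hn => hc _ (hmem n hn)⟩
  · refine Or.inr fun n hn n' hn' h => hφ.injective (hinj (hmem n hn) (hmem n' hn') h)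

theorem le_atTop {U : Ultrafilter ℕ} (hU : ∀ w, ({w} : Set ℕ) ∉ U) : (U : Filter ℕ) ≤ atTop := by
  rw [← Nat.cofinite_eq_atTop]
  intro s hs
  by_contra h
  have h1 : sᶜ ∈ U := Ultrafilter.compl_mem_iff_notMem.2 h
  obtain ⟨w, hw, hw'⟩ := Ultrafilter.eq_pure_of_finite_mem (mem_cofinite.1 hs) h1
  exact hU w (by rw [hw']; exact Ultrafilter.mem_pure.2 rfl)

/-! ### countable products which are Grothendieck -/

section Prod

variable {J : Type} [Countable J] {𝒰 : J → Set (Ultrafilter ℕ)}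

theorem cc_prod {U : Ultrafilter ℕ} (hU : ∀ w, ({w} : Set ℕ) ∉ U) (hUU : ∀ j, U ∈ 𝒰 j) :
    CountablyCompactIn (Set.pi univ fun j => {x : XF D (𝒰 j) | ∃ d, x.1 = emb (pure d)}) := by
  refine Pool.Agent.Results.MP_8a2df8_gt.WeakProductCompact.countablyCompactIn_of_seq
    fun w hw => ?_
  choose d hd using fun n j => hw n j (mem_univ j)
  obtain ⟨φ, hφ, hφ'⟩ := diag d
  have hle := le_atTop hU
  have key : ∀ j, ∃ z : XF D (𝒰 j), Tendsto (fun k => w (φ k) j) U (𝓝 z) := by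
    intro j
    have hd' : ∀ k, (w (φ k) j).1 = emb (pure (d (φ k) j)) := fun k => hd (φ k) j
    obtain ⟨m, ⟨c, hc⟩ | hinj⟩ := hφ' j
    · refine ⟨ptF (𝒰 j) c, tendsto_nhds_of_eventually_eq ?_⟩
      filter_upwards [hle (eventually_ge_atTop m)] with k hk
      apply Subtype.ext
      rw [hd' k, hc k hk]
      rfl
    · refine ⟨⟨emb (U.map fun k => d (φ k) j), Or.inr (Or.inr ⟨U, hUU j, _,
        ⟨Ici m, hle (Ici_mem_atTop m), hinj⟩, rfl⟩)⟩, ?_⟩
      rw [IsInducing.subtypeVal.tendsto_nhds_iff]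
      have h1 := tendsto_emb (u := U.map fun k => d (φ k) j) (l := (U : Filter ℕ))
        (g := fun k => d (φ k) j) (by rw [Ultrafilter.coe_map]; exact tendsto_map)
      exact h1.congr fun k => (hd' k).symm
  choose z hz using key
  refine ⟨z, ?_⟩
  have h1 : Tendsto (w ∘ φ) U (𝓝 z) := tendsto_pi_nhds.2 hz
  exact MapClusterPt.of_comp (hφ.tendsto_atTop.mono_left hle) h1.mapClusterPt

theorem grothendieck_prod [Uncountable D] {U : Ultrafilter ℕ} (hU : ∀ w, ({w} : Set ℕ) ∉ U)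
    (hUU : ∀ j, U ∈ 𝒰 j) : IsGrothendieck (∀ j, XF D (𝒰 j)) := by
  obtain ⟨d⟩ : Nonempty D := inferInstance
  refine grothendieck_of_dense (dense_pi univ fun j _ => dense_DF (𝒰 j)) (cc_prod hU hUU)
    ⟨fun j => ptF (𝒰 j) d, fun j _ => ⟨d, rfl⟩⟩

end Prod

/-! ### finite products which are not weakly Grothendieck -/

section Fail

variable {J : Type} [Finite J] [Nonempty J] (𝒰 : J → Set (Ultrafilter ℕ))

/-- The part of the diagonal lying over `B ⊆ D`. -/
def DeltaF (B : Set D) : Set (∀ j, XF D (𝒰 j)) :=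
  {p | ∃ d ∈ B, ∀ j, (p j).1 = emb (pure d)}

omit [Nonempty J] in
theorem isOpen_DeltaF (hU : ∀ j, ∀ U ∈ 𝒰 j, ∀ w, ({w} : Set ℕ) ∉ U) (B : Set D) :
    IsOpen (DeltaF 𝒰 B) := by
  have : DeltaF 𝒰 B = ⋃ d ∈ B, ⋂ j, {p | (p j).1 ⟨{d}, countable_singleton d⟩ = true} := by
    ext p
    simp only [DeltaF, mem_iUnion, mem_iInter, exists_prop]
    constructor
    · rintro ⟨d, hd, h1⟩
      refine ⟨d, hd, fun j => ?_⟩
      show (p j).1 _ = true
      rw [h1]; exact emb_pure.2 rfl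
    · rintro ⟨d, hd, h1⟩
      exact ⟨d, hd, fun j => eq_pure_of_sing' (hU j) (p j).2 (h1 j)⟩
  rw [this]
  refine isOpen_biUnion fun d _ => isOpen_iInter_of_finite fun j => ?_
  have hc : Continuous fun p : ∀ j, XF D (𝒰 j) => (p j).1 ⟨{d}, countable_singleton d⟩ :=
    (continuous_apply _).comp (continuous_subtype_val.comp (continuous_apply j))
  exact (isOpen_discrete {true}).preimage hc

omit [Finite J] in
theorem isClosed_DeltaF
    (hno : ∀ x : K D, (∀ j, x ∈ XF D (𝒰 j)) → x = (fun _ => false) ∨ ∃ d, x = emb (pure d))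
    {B : Set D} (hB : B.Countable) : IsClosed (DeltaF 𝒰 B) := by
  obtain ⟨j₀⟩ : Nonempty J := inferInstance
  have : DeltaF 𝒰 B = {p | ∀ i j, (p i).1 = (p j).1} ∩ {p | (p j₀).1 ⟨B, hB⟩ = true} := by
    ext p
    constructor
    · rintro ⟨d, hd, h1⟩
      refine ⟨fun i j => (h1 i).trans (h1 j).symm, ?_⟩
      show (p j₀).1 _ = true
      rw [h1]; exact emb_pure.2 hd
    · rintro ⟨h1, h⟩
      have h' : (p j₀).1 ⟨B, hB⟩ = true := h
      have h2 : ∀ j, (p j₀).1 ∈ XF D (𝒰 j) := fun j => (h1 j j₀) ▸ (p j).2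
      rcases hno _ h2 with h3 | ⟨d, hd⟩
      · rw [h3] at h'; exact absurd h' (by simp)
      · refine ⟨d, ?_, fun j => (h1 j j₀).trans hd⟩
        rw [hd] at h'
        exact emb_pure.1 h'
  rw [this]
  refine IsClosed.inter ?_ ?_
  · have : {p : ∀ j, XF D (𝒰 j) | ∀ i j, (p i).1 = (p j).1} =
        ⋂ i, ⋂ j, {p | (p i).1 = (p j).1} := by
      ext p; simp
    rw [this]
    exact isClosed_iInter fun i => isClosed_iInter fun j =>
      isClosed_eq (continuous_subtype_val.comp (continuous_apply i))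
        (continuous_subtype_val.comp (continuous_apply j))
  · have hc : Continuous fun p : ∀ j, XF D (𝒰 j) => (p j₀).1 ⟨B, hB⟩ :=
      (continuous_apply _).comp (continuous_subtype_val.comp (continuous_apply j₀))
    exact (isClosed_discrete {true}).preimage hc

/-- The indicator function of the part of the diagonal over `B`. -/
noncomputable def indF (B : Set D) : (∀ j, XF D (𝒰 j)) → ℝ := (DeltaF 𝒰 B).indicator 1

theorem indF_cont (hU : ∀ j, ∀ U ∈ 𝒰 j, ∀ w, ({w} : Set ℕ) ∉ U)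
    (hno : ∀ x : K D, (∀ j, x ∈ XF D (𝒰 j)) → x = (fun _ => false) ∨ ∃ d, x = emb (pure d))
    {B : Set D} (hB : B.Countable) : Continuous (indF 𝒰 B) := by
  have hcl : IsClopen (DeltaF 𝒰 B) := ⟨isClosed_DeltaF 𝒰 hno hB, isOpen_DeltaF 𝒰 hU B⟩
  refine continuous_one.indicator fun a ha => ?_
  rw [hcl.frontier_eq] at ha
  exact absurd ha (notMem_empty a)

omit [Finite J] in
theorem indF_tendsto {ι : Type} {l : Filter ι} {B : ι → Set D} {L : Set D}
    (h1 : ∀ d ∈ L, ∀ᶠ i in l, d ∈ B i) (h2 : ∀ d ∉ L, ∀ᶠ i in l, d ∉ B i) :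
    Tendsto (fun i => indF 𝒰 (B i)) l (𝓝 (indF 𝒰 L)) := by
  classical
  obtain ⟨j₀⟩ : Nonempty J := inferInstance
  rw [tendsto_pi_nhds]
  intro p
  refine tendsto_nhds_of_eventually_eq ?_
  by_cases hp : ∃ d, ∀ j, (p j).1 = emb (pure d)
  · obtain ⟨d, hd⟩ := hp
    have key : ∀ C : Set D, p ∈ DeltaF 𝒰 C ↔ d ∈ C := by
      intro C
      constructor
      · rintro ⟨d', hd', h⟩
        have h3 : d' = d := by
          have h := h j₀
          rw [hd j₀] at h
          have h4 : emb (pure d) ⟨{d}, countable_singleton d⟩ = true := emb_pure.2 rfl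
          rw [h] at h4
          exact emb_pure.1 h4
        rwa [h3] at hd'
      · intro hdC
        exact ⟨d, hdC, hd⟩
    by_cases hL : d ∈ L
    · filter_upwards [h1 d hL] with i hi
      rw [indF, indF, indicator_of_mem ((key _).2 hi), indicator_of_mem ((key _).2 hL)]
    · filter_upwards [h2 d hL] with i hi
      rw [indF, indF, indicator_of_notMem (fun h => hi ((key _).1 h)),
        indicator_of_notMem (fun h => hL ((key _).1 h))]
  · have key : ∀ C : Set D, p ∉ DeltaF 𝒰 C := by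
      rintro C ⟨d, -, h⟩
      exact hp ⟨d, h⟩
    exact Eventually.of_forall fun i => by
      rw [indF, indF, indicator_of_notMem (key _), indicator_of_notMem (key _)]

theorem not_weaklyF [Uncountable D] (hU : ∀ j, ∀ U ∈ 𝒰 j, ∀ w, ({w} : Set ℕ) ∉ U)
    (hno : ∀ x : K D, (∀ j, x ∈ XF D (𝒰 j)) → x = (fun _ => false) ∨ ∃ d, x = emb (pure d)) :
    ¬ IsWeaklyGrothendieck (∀ j, XF D (𝒰 j)) := by
  classical
  intro hG
  have hcont : ∀ {B : Set D}, B.Countable → Continuous (indF 𝒰 B) := fun hB =>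
    indF_cont 𝒰 hU hno hB
  set A : Set (Cp (∀ j, XF D (𝒰 j))) := {h | ∃ B : Set D, B.Countable ∧ h.1 = indF 𝒰 B} with hA
  have hAc : CountablyCompactIn A := by
    intro C hC hCi
    have : Infinite C := hCi.to_subtype
    set a : ℕ → C := fun n => Infinite.natEmbedding C n with ha
    have hainj : Function.Injective a := (Infinite.natEmbedding C).injective
    choose B hB1 hB2 using fun n => hC (a n).2
    set L : Set D := {d | ∀ᶠ n in (hyperfilter ℕ : Filter ℕ), d ∈ B n} with hL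
    have hLc : L.Countable := by
      refine (countable_iUnion hB1).mono fun d hd => ?_
      obtain ⟨n, hn⟩ := Eventually.exists hd
      exact mem_iUnion.2 ⟨n, hn⟩
    refine ⟨⟨indF 𝒰 L, hcont hLc⟩, ?_⟩
    rw [accPt_iff_nhds]
    intro N hN
    have ht : Tendsto (fun n => (a n).1) (hyperfilter ℕ : Filter ℕ)
        (𝓝 (⟨indF 𝒰 L, hcont hLc⟩ : Cp (∀ j, XF D (𝒰 j)))) := by
      refine tendsto_subtype_rng.2 ?_
      have h1 : Tendsto (fun n => indF 𝒰 (B n)) (hyperfilter ℕ : Filter ℕ) (𝓝 (indF 𝒰 L)) := by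
        refine indF_tendsto 𝒰 (fun d hd => hd) (fun d hd => ?_)
        exact Ultrafilter.eventually_not.2 hd
      refine h1.congr fun n => ?_
      exact (hB2 n).symm
    have hmem : {n | (a n).1 ∈ N} ∈ (hyperfilter ℕ : Filter ℕ) := ht hN
    have hinf : {n | (a n).1 ∈ N}.Infinite := fun hfin => notMem_hyperfilter_of_finite hfin hmem
    by_contra hno'
    push Not at hno'
    have h3 : ∀ n ∈ {n | (a n).1 ∈ N}, (a n).1 = ⟨indF 𝒰 L, hcont hLc⟩ :=
      fun n hn => hno' _ ⟨hn, (a n).2⟩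
    obtain ⟨n, hn⟩ := hinf.nonempty
    obtain ⟨m, hm, hmn⟩ := hinf.exists_gt n
    have h4 : a n = a m := Subtype.ext ((h3 n hn).trans (h3 m hm).symm)
    exact absurd (hainj h4) hmn.ne
  have hcomp : IsCompact (closure A) := hG A hAc
  have himg : IsClosed (Subtype.val '' closure A) := (hcomp.image continuous_subtype_val).isClosed
  have hlim : Tendsto (fun F : Finset D => indF 𝒰 (F : Set D)) atTop
      (𝓝 (indF 𝒰 (univ : Set D))) := by
    refine indF_tendsto 𝒰 (fun d _ => ?_) (fun d hd => absurd (mem_univ d) hd)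
    filter_upwards [eventually_ge_atTop {d}] with F hF
    exact hF (Finset.mem_singleton_self d)
  have hmem : indF 𝒰 (univ : Set D) ∈ Subtype.val '' closure A := by
    refine himg.mem_of_tendsto hlim (Eventually.of_forall fun F => ?_)
    have hFc : (F : Set D).Countable := F.countable_toSet
    exact ⟨⟨indF 𝒰 F, hcont hFc⟩, subset_closure ⟨F, hFc, rfl⟩, rfl⟩
  obtain ⟨⟨f, hf⟩, -, hfe⟩ := hmem
  simp only at hfe
  rw [hfe] at hf
  -- discontinuity at the point at infinity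
  have hz : ∀ j, (fun _ => false : K D) ∈ XF D (𝒰 j) := fun j => Or.inl rfl
  have ht : Tendsto (fun d : D => (fun j => ptF (𝒰 j) d : ∀ j, XF D (𝒰 j))) (coc D)
      (𝓝 (fun j => ⟨_, hz j⟩)) := by
    rw [tendsto_pi_nhds]
    intro j
    rw [IsInducing.subtypeVal.tendsto_nhds_iff]
    exact tendsto_zero
  have h1 := (hf.tendsto _).comp ht
  obtain ⟨j₀⟩ : Nonempty J := inferInstance
  have h2 : indF 𝒰 (univ : Set D) (fun j => ⟨_, hz j⟩) = 0 := by
    rw [indF, indicator_of_notMem]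
    rintro ⟨d, -, h⟩
    have h := h j₀
    have h3 : emb (pure d) ⟨{d}, countable_singleton d⟩ = true := emb_pure.2 rfl
    rw [← h] at h3
    exact absurd h3 (by simp)
  have h3 : ∀ d : D, (indF 𝒰 (univ : Set D) ∘
      fun d : D => (fun j => ptF (𝒰 j) d : ∀ j, XF D (𝒰 j))) d = 1 := by
    intro d
    have : (fun j => ptF (𝒰 j) d : ∀ j, XF D (𝒰 j)) ∈ DeltaF 𝒰 (univ : Set D) :=
      ⟨d, mem_univ d, fun j => rfl⟩
    rw [Function.comp_apply, indF, indicator_of_mem this]
    rfl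
  rw [h2] at h1
  have h4 : Tendsto (fun _ : D => (1 : ℝ)) (coc D) (𝓝 0) := h1.congr h3
  have := coc_neBot (D := D)
  have h5 := tendsto_nhds_unique h4 tendsto_const_nhds
  exact one_ne_zero h5.symm

end Fail

end Pool.Agent.Y20.GC
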