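import Mathlib
import Pool.Agent.Results.MP_20595b_gt.ProductFails

/-!
A sequence of nonprincipal ultrafilters on `ℕ`, none of which is an image of an earlier one.
-/

set_option autoImplicit false

open Filter Topology Set
open Pool.Agent.Results.MP_20595b_gt.ProductFails (T pre eventually_pre Ih)

namespace Pool.Agent.Y20.GC

open Classical in
/-- A set that is not in `Φ h`. -/
noncomputable def Jp (Φ : (ℕ → T) → Ultrafilter T) (h : ℕ → T) : Set T :=
  if Ih h ∈ Φ h then (Ih h)ᶜ else Ih h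

theorem Jp_notMem (Φ : (ℕ → T) → Ultrafilter T) (h : ℕ → T) : Jp Φ h ∉ Φ h := by
  rw [Jp]
  split_ifs with hc
  · exact Ultrafilter.compl_notMem_iff.2 hc
  · exact hc

/-- The filter generated by the sets `Jp Φ h` and the cofinite sets. -/
noncomputable def FP (Φ : (ℕ → T) → Ultrafilter T) : Filter T where
  sets := {s | ∃ (H : Finset (ℕ → T)) (E : Finset T), ∀ x, x ∉ E →
    (∀ h ∈ H, x ∈ Jp Φ h) → x ∈ s}
  univ_sets := ⟨∅, ∅, fun x _ _ => mem_univ x⟩
  sets_of_superset := fun ⟨H, E, h⟩ hst => ⟨H, E, fun x hx hx' => hst (h x hx hx')⟩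
  inter_sets := by
    classical
    rintro s t ⟨H, E, h⟩ ⟨H', E', h'⟩
    refine ⟨H ∪ H', E ∪ E', fun x hx hx' => ⟨h x (fun h1 => hx (Finset.mem_union_left _ h1))
      (fun g hg => hx' g (Finset.mem_union_left _ hg)),
      h' x (fun h1 => hx (Finset.mem_union_right _ h1))
      (fun g hg => hx' g (Finset.mem_union_right _ hg))⟩⟩

theorem FP_neBot (Φ : (ℕ → T) → Ultrafilter T) : (FP Φ).NeBot := by
  classical
  rw [neBot_iff, ne_eq, ← empty_mem_iff_bot]
  rintro ⟨H, E, hx⟩
  have h1 : ∀ᶠ k in atTop, ∀ h ∈ H, ∀ h' ∈ H, h ≠ h' → pre h k ≠ pre h' k := by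
    rw [Filter.eventually_all_finset]
    intro h _
    rw [Filter.eventually_all_finset]
    intro h' _
    by_cases hhh : h = h'
    · exact Eventually.of_forall fun k hc => absurd hhh hc
    · filter_upwards [eventually_pre hhh] with k hk _
      exact hk
  have h2 : ∀ᶠ k in atTop, ∀ x ∈ E, x.1 < k := by
    rw [Filter.eventually_all_finset]
    intro x _
    exact eventually_gt_atTop x.1
  obtain ⟨k, hk1, hk2⟩ := (h1.and h2).exists
  set S : Finset (List ℕ) := (H.filter fun h => Ih h ∉ Φ h).image fun h => pre h k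
    with hS
  refine hx (k, S) (fun hE => (hk2 _ hE).ne rfl) fun h hh => ?_
  by_cases hc : Ih h ∈ Φ h
  · rw [Jp, if_pos hc]
    intro hmem
    have hmem' : pre h k ∈ S := hmem
    rw [hS, Finset.mem_image] at hmem'
    obtain ⟨h', hh', he⟩ := hmem'
    rw [Finset.mem_filter] at hh'
    have : h' ≠ h := by
      rintro rfl
      exact hh'.2 hc
    exact hk1 h' hh'.1 h hh this he
  · rw [Jp, if_neg hc]
    show pre h k ∈ S
    exact Finset.mem_image_of_mem _ (Finset.mem_filter.2 ⟨hh, hc⟩)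

theorem exists_avoid (Φ : (ℕ → T) → Ultrafilter T) : ∃ V : Ultrafilter T,
    (∀ w, ({w} : Set T) ∉ V) ∧ ∀ h : ℕ → T, Φ h ≠ V := by
  have := FP_neBot Φ
  refine ⟨Ultrafilter.of (FP Φ), fun w hw => ?_, fun h hh => ?_⟩
  · have h1 : ({w} : Set T)ᶜ ∈ FP Φ :=
      ⟨∅, {w}, fun x hx _ => fun hxw => hx (Finset.mem_singleton.2 hxw)⟩
    exact Ultrafilter.compl_notMem_iff.2 hw (Ultrafilter.of_le (FP Φ) h1)
  · have h1 : Jp Φ h ∈ FP Φ := ⟨{h}, ∅, fun x _ hx => hx h (Finset.mem_singleton_self h)⟩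
    have h2 : Jp Φ h ∈ (Ultrafilter.of (FP Φ) : Filter T) := Ultrafilter.of_le (FP Φ) h1
    rw [← hh] at h2
    exact Jp_notMem Φ h h2

/-- for every sequence of ultrafilters there is a nonprincipal ultrafilter which is not an image of
any of them -/
theorem exists_next (u : ℕ → Ultrafilter ℕ) : ∃ V : Ultrafilter ℕ,
    (∀ w, ({w} : Set ℕ) ∉ V) ∧ ∀ (n : ℕ) (h : ℕ → ℕ), (u n).map h ≠ V := by
  let e : T ≃ ℕ := Denumerable.eqv T
  obtain ⟨V, hV, hVn⟩ := exists_avoid fun g => (u (e (g 0))).map fun k => g (k + 1)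
  refine ⟨V.map e, fun w hw => ?_, fun n h hh => ?_⟩
  · rw [Ultrafilter.mem_map] at hw
    have : e ⁻¹' {w} = {e.symm w} := by
      ext x
      simp [Equiv.eq_symm_apply]
    rw [this] at hw
    exact hV _ hw
  · let g : ℕ → T := fun k => Nat.casesOn k (e.symm n) fun k => e.symm (h k)
    apply hVn g
    have h1 : (u (e (g 0))).map (fun k => g (k + 1)) = ((u n).map h).map e.symm := by
      have h2 : e (g 0) = n := e.apply_symm_apply n
      rw [h2, Ultrafilter.map_map]
      rfl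
    rw [h1, hh, Ultrafilter.map_map, Equiv.symm_comp_self, Ultrafilter.map_id]

/-- a sequence of nonprincipal ultrafilters, none an image of an earlier one -/
theorem exists_seq : ∃ u : ℕ → Ultrafilter ℕ, (∀ n w, ({w} : Set ℕ) ∉ u n) ∧
    ∀ m n, m < n → ∀ h : ℕ → ℕ, (u m).map h ≠ u n := by
  classical
  refine exists_seq_of_forall_finset_exists (fun V : Ultrafilter ℕ => ∀ w, ({w} : Set ℕ) ∉ V)
    (fun x y => ∀ h : ℕ → ℕ, x.map h ≠ y) ?_
  intro s _
  obtain ⟨V, h1, h2⟩ := exists_next fun n => (s.toList[n]?).getD (hyperfilter ℕ)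
  refine ⟨V, h1, fun x hx h => ?_⟩
  have hx' : x ∈ s.toList := Finset.mem_toList.2 hx
  obtain ⟨n, hn, hnx⟩ := List.mem_iff_getElem.1 hx'
  have h3 := h2 n h
  have h4 : (s.toList[n]?).getD (hyperfilter ℕ) = x := by
    rw [List.getElem?_eq_getElem hn, hnx]
    rfl
  simp only [h4] at h3
  exact h3

theorem map_ne {u : ℕ → Ultrafilter ℕ} (hu : ∀ m n, m < n → ∀ h : ℕ → ℕ, (u m).map h ≠ u n)
    {D : Type} {m n : ℕ} (hmn : m ≠ n) {f g : ℕ → D} (hf : ∃ A ∈ u m, InjOn f A)
    (hg : ∃ A ∈ u n, InjOn g A) : (u m).map f ≠ (u n).map g := by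
  have key : ∀ {m n : ℕ} {f g : ℕ → D}, m < n → (∃ A ∈ u n, InjOn g A) →
      (u m).map f ≠ (u n).map g := by
    rintro m n f g hmn ⟨A, hA, hgA⟩ he
    have h1 : ((u n).map g).map (Function.invFunOn g A) = u n := by
      rw [Ultrafilter.map_map]
      apply Ultrafilter.coe_injective
      rw [Ultrafilter.coe_map]
      have h2 : Function.invFunOn g A ∘ g =ᶠ[(u n : Filter ℕ)] id := by
        filter_upwards [hA] with x hx
        exact hgA.leftInvOn_invFunOn hx
      rw [Filter.map_congr h2, Filter.map_id]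
    rw [← he, Ultrafilter.map_map] at h1
    exact hu m n hmn _ h1
  rcases lt_or_gt_of_ne hmn with h | h
  · exact key h hg
  · exact fun he => key h hf he.symm

end Pool.Agent.Y20.GC
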