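import Mathlib

/-!
Continuous maps of `(X × K) × ℕ`, `K` compact, onto the product of `X` and a `σ`-compact set.
-/

set_option autoImplicit false

open Set Filter Topology

namespace Pool.Agent.Y20.GC

universe u v

/-- the `n`-th compact set together with the point `y` -/
def Kn {Y : Type v} (K : ℕ → Set Y) (y : Y) (n : ℕ) : Set Y := insert y (K n)

/-- the product of the compact sets `Kn K y n` -/
abbrev PK {Y : Type v} (K : ℕ → Set Y) (y : Y) : Type v := ∀ n, Kn K y n

/-- the map `((x, k), n) ↦ (x, k n)` -/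
def pmap (X : Type u) {Y : Type v} (K : ℕ → Set Y) (y : Y) : (X × PK K y) × ℕ → X × Y :=
  fun p => (p.1.1, (p.1.2 p.2).1)

variable {X : Type u} {Y : Type v} [TopologicalSpace X] [TopologicalSpace Y]

theorem pmap_continuous (K : ℕ → Set Y) (y : Y) : Continuous (pmap X K y) := by
  rw [continuous_prod_of_discrete_right]
  intro n
  have h1 : Continuous (fun k : PK K y => k n) := continuous_apply n
  have h2 : Continuous (fun p : X × PK K y => (p.2 n).1) :=
    continuous_subtype_val.comp (h1.comp continuous_snd)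
  exact continuous_fst.prodMk h2

theorem compact_PK {K : ℕ → Set Y} (hK : ∀ n, IsCompact (K n)) (y : Y) :
    CompactSpace (PK K y) := by
  have : ∀ n, CompactSpace (Kn K y n) := fun n =>
    isCompact_iff_compactSpace.1 ((hK n).insert y)
  infer_instance

omit [TopologicalSpace X] [TopologicalSpace Y] in
theorem range_pmap (K : ℕ → Set Y) (y : Y) :
    (univ ×ˢ ⋃ n, K n) ⊆ range (pmap X K y) ∧ ∀ x : X, (x, y) ∈ range (pmap X K y) := by
  classical
  constructor
  · rintro ⟨x, z⟩ ⟨-, hz⟩
    obtain ⟨n, hn⟩ := mem_iUnion.1 hz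
    refine ⟨((x, fun m => if h : m = n then ⟨z, by subst h; exact mem_insert_of_mem _ hn⟩
      else ⟨y, mem_insert _ _⟩), n), ?_⟩
    simp [pmap]
  · intro x
    exact ⟨((x, fun m => ⟨y, mem_insert _ _⟩), 0), rfl⟩

end Pool.Agent.Y20.GC
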